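import Mathlib
import Pool.Agent.Lib.MP_2d1a26_lc.Tame
import Pool.Agent.Lib.MP_2d1a26_lc.Algebraic

open Set Polynomial FirstOrder

namespace Pool.Agent.Results.MP_2d1a26_lc.SmoothDefinableAffine

open Pool.Agent.Lib.MP_2d1a26_lc

/-- The only function symbol: binary addition. -/
inductive FunSym : ℕ → Type
  | add : FunSym 2

/-- Relation symbols: the order, the graph of restricted multiplication, the set of integers. -/
inductive RelSym : ℕ → Type
  | lt : RelSym 2
  | mul : RelSym 3
  | int : RelSym 1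

/-- The first-order language of the structure. -/
def Lang : FirstOrder.Language := ⟨FunSym, RelSym⟩

/-- Interpretation of the function symbol: addition of reals. -/
def funInt : (n : ℕ) → FunSym n → (Fin n → ℝ) → ℝ
  | _, FunSym.add => fun v => v 0 + v 1

/-- Interpretation of the relation symbols. -/
def relInt : (n : ℕ) → RelSym n → (Fin n → ℝ) → Prop
  | _, RelSym.lt => fun v => v 0 < v 1
  | _, RelSym.mul => fun v => (0 < v 0 ∧ v 0 < 1) ∧ (0 < v 1 ∧ v 1 < 1) ∧ v 0 * v 1 = v 2
  | _, RelSym.int => fun v => ∃ k : ℤ, v 0 = k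

/-- The structure `(ℝ, <, +, ·|(0,1)², ℤ)`. -/
instance structureReal : Lang.Structure ℝ where
  funMap {n} g v := funInt n g v
  RelMap {n} r v := relInt n r v

lemma lin_term {γ : Type} (t : Lang.Term γ) : Lin (fun w : γ → ℝ => t.realize w) := by
  induction t with
  | var i => exact Lin.var i
  | @func n g ts ih =>
    change FunSym n at g
    cases g with
    | add =>
      have := (ih 0).add (ih 1)
      exact this

lemma Det.congr {γ : Type} {q q' : (γ → ℝ) → Prop} (h : Det q) (e : ∀ w, q' w ↔ q w) :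
    Det q' := by
  have : q' = q := funext fun w => propext (e w)
  rw [this]
  exact h

/-- Sets defined by formulas are determined. -/
lemma det_formula {β : Type} {n : ℕ} (φ : Lang.BoundedFormula β n) :
    Det (fun w : β ⊕ Fin n → ℝ => φ.Realize (w ∘ Sum.inl) (w ∘ Sum.inr)) := by
  induction φ with
  | falsum =>
    refine ⟨Unit, inferInstance, fun _ => (), ∅, ?_⟩
    intro x y _ _
    rfl
  | @equal n t1 t2 =>
    apply Det.congr (((lin_term t1).sub (lin_term t2)).det_sign.map (fun s => s = 0))
    intro w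
    rw [sign_eq_zero_iff, sub_eq_zero]
    have e : Sum.elim (w ∘ Sum.inl) (w ∘ Sum.inr) = w := Sum.elim_comp_inl_inr w
    change (t1.realize (Sum.elim (w ∘ Sum.inl) (w ∘ Sum.inr)) =
      t2.realize (Sum.elim (w ∘ Sum.inl) (w ∘ Sum.inr))) ↔ _
    rw [e]
  | @rel n l r ts =>
    change RelSym l at r
    cases r with
    | lt =>
      apply Det.congr (((lin_term (ts 1)).sub (lin_term (ts 0))).det_sign.map (fun s => s = 1))
      intro w
      rw [sign_eq_one_iff, sub_pos]
      have e : Sum.elim (w ∘ Sum.inl) (w ∘ Sum.inr) = w := Sum.elim_comp_inl_inr w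
      change ((ts 0).realize (Sum.elim (w ∘ Sum.inl) (w ∘ Sum.inr)) <
        (ts 1).realize (Sum.elim (w ∘ Sum.inl) (w ∘ Sum.inr))) ↔ _
      rw [e]
    | mul =>
      apply Det.congr (Lin.det_mul (lin_term (ts 0)) (lin_term (ts 1)) (lin_term (ts 2)))
      intro w
      have e : Sum.elim (w ∘ Sum.inl) (w ∘ Sum.inr) = w := Sum.elim_comp_inl_inr w
      change ((0 < (ts 0).realize (Sum.elim (w ∘ Sum.inl) (w ∘ Sum.inr)) ∧
          (ts 0).realize (Sum.elim (w ∘ Sum.inl) (w ∘ Sum.inr)) < 1) ∧
        (0 < (ts 1).realize (Sum.elim (w ∘ Sum.inl) (w ∘ Sum.inr)) ∧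
          (ts 1).realize (Sum.elim (w ∘ Sum.inl) (w ∘ Sum.inr)) < 1) ∧
        (ts 0).realize (Sum.elim (w ∘ Sum.inl) (w ∘ Sum.inr)) *
          (ts 1).realize (Sum.elim (w ∘ Sum.inl) (w ∘ Sum.inr)) =
          (ts 2).realize (Sum.elim (w ∘ Sum.inl) (w ∘ Sum.inr))) ↔ _
      rw [e]
    | int =>
      apply Det.congr (Lin.det_int (lin_term (ts 0)))
      intro w
      have e : Sum.elim (w ∘ Sum.inl) (w ∘ Sum.inr) = w := Sum.elim_comp_inl_inr w
      change (∃ k : ℤ, (ts 0).realize (Sum.elim (w ∘ Sum.inl) (w ∘ Sum.inr)) = k) ↔ _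
      rw [e]
  | imp φ1 φ2 ih1 ih2 =>
    exact ih1.map₂ ih2 (fun a b => a → b)
  | @all n φ ih =>
    -- rename the last bound variable
    let e : β ⊕ Fin (n + 1) → Option (β ⊕ Fin n) :=
      Sum.elim (fun b => some (Sum.inl b)) (Fin.snoc (fun i => some (Sum.inr i)) none)
    have h1 := (ih.rename e).map (fun p => ¬ p)
    apply Det.congr (h1.exists_option.map (fun p => ¬ p))
    intro w
    rw [not_exists]
    simp only [not_not]
    apply forall_congr'
    intro t
    have e1 : ((fun o => Option.elim o t w) ∘ e) ∘ Sum.inl = w ∘ Sum.inl := by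
      funext b; rfl
    have e2 : ((fun o => Option.elim o t w) ∘ e) ∘ Sum.inr = Fin.snoc (w ∘ Sum.inr) t := by
      funext i
      refine Fin.lastCases ?_ (fun j => ?_) i
      · simp [e]
      · simp [e]
    rw [e1, e2]

/-- Definable sets with parameters are determined. -/
lemma det_of_definable {α : Type} {s : Set (α → ℝ)} (h : (Set.univ : Set ℝ).Definable Lang s) :
    Det (fun v : α → ℝ => v ∈ s) := by
  rw [Set.definable_iff_exists_formula_sum] at h
  obtain ⟨φ, rfl⟩ := h
  have h1 := det_formula φ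
  let e : (((Set.univ : Set ℝ) : Type) ⊕ α) ⊕ Fin 0 → ((Set.univ : Set ℝ) : Type) ⊕ α :=
    Sum.elim id (fun i => Fin.elim0 i)
  have h2 := h1.rename e
  apply Det.congr (h2.specialize (fun b => (b : ℝ)))
  intro v
  change φ.Realize _ ↔ _
  rw [Language.Formula.Realize]
  have e1 : ((Sum.elim (fun b : ((Set.univ : Set ℝ) : Type) => (b : ℝ)) v ∘ e) ∘ Sum.inl) =
      Sum.elim (fun b : ((Set.univ : Set ℝ) : Type) => (b : ℝ)) v := by
    funext i; rfl
  rw [e1]
  exact iff_of_eq (congrArg _ (Subsingleton.elim _ _))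

/-- The bivariate polynomial attached to a two-variable polynomial and shifts. -/
noncomputable def shiftPoly (m n : ℤ) : MvPolynomial (Fin 2) ℝ →ₐ[ℝ] ℝ[X][X] :=
  MvPolynomial.aeval ![C (X - C (m : ℝ)), X - C (C (n : ℝ))]

lemma evalEval_shiftPoly (m n : ℤ) (P : MvPolynomial (Fin 2) ℝ) (x y : ℝ) :
    (shiftPoly m n P).evalEval x y = MvPolynomial.eval ![x - m, y - n] P := by
  have : (evalEvalRingHom x y).comp
      ((shiftPoly m n : MvPolynomial (Fin 2) ℝ →ₐ[ℝ] ℝ[X][X]) : MvPolynomial (Fin 2) ℝ →+* ℝ[X][X]) =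
      MvPolynomial.eval ![x - m, y - n] := by
    apply MvPolynomial.ringHom_ext
    · intro r
      simp [shiftPoly]
    · intro i
      fin_cases i
      · simp [shiftPoly]
      · simp [shiftPoly]
  exact congrArg (fun F => F P) this

lemma shiftPoly_ne_zero (m n : ℤ) {P : MvPolynomial (Fin 2) ℝ} (hP : P ≠ 0) :
    shiftPoly m n P ≠ 0 := by
  intro h0
  apply hP
  apply MvPolynomial.funext
  intro v
  have h1 := evalEval_shiftPoly m n P (v 0 + m) (v 1 + n)
  rw [h0, evalEval_zero] at h1
  rw [map_zero]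
  have h2 : ![v 0 + (m : ℝ) - m, v 1 + (n : ℝ) - n] = v := by
    funext i
    fin_cases i <;> simp
  rw [h2] at h1
  exact h1.symm

section Graph

variable {f : ℝ → ℝ}

/-- If the graph of `f` is determined then its fractional parts satisfy one polynomial equation. -/
lemma exists_poly (hdet : Det (fun v : Fin 2 → ℝ => v 1 = f (v 0))) :
    ∃ P : MvPolynomial (Fin 2) ℝ, P ≠ 0 ∧
      ∀ x, MvPolynomial.eval ![Int.fract x, Int.fract (f x)] P = 0 := by
  classical
  obtain ⟨ι, hι, c, G, hG⟩ := hdet
  refine ⟨∏ p ∈ G.filter (fun p => p ≠ 0), p, ?_, ?_⟩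
  · rw [Finset.prod_ne_zero_iff]
    intro p hp
    exact (Finset.mem_filter.mp hp).2
  · intro x
    by_contra hne
    rw [MvPolynomial.eval_prod, ← ne_eq, Finset.prod_ne_zero_iff] at hne
    set t := Int.fract (f x) with ht
    have ht0 : 0 ≤ t := Int.fract_nonneg _
    have ht1 : t < 1 := Int.fract_lt_one _
    -- signs are locally constant to the right of `t`
    have hloc : ∀ p ∈ G, ∀ᶠ t' in nhdsWithin t (Ioi t),
        SignType.sign (MvPolynomial.eval ![Int.fract x, t] p) =
        SignType.sign (MvPolynomial.eval ![Int.fract x, t'] p) := by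
      intro p hp
      by_cases hp0 : p = 0
      · subst hp0
        exact Filter.Eventually.of_forall (fun t' => by rw [RingHom.map_zero, RingHom.map_zero])
      · have h1 : MvPolynomial.eval ![Int.fract x, t] p ≠ 0 :=
          hne p (Finset.mem_filter.mpr ⟨hp, hp0⟩)
        have hcont : Continuous (fun t' : ℝ => MvPolynomial.eval ![Int.fract x, t'] p) := by
          have h2 : Continuous (fun t' : ℝ => (![Int.fract x, t'] : Fin 2 → ℝ)) := by
            apply continuous_pi
            intro i
            fin_cases i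
            · exact continuous_const
            · exact continuous_id
          exact (MvPolynomial.continuous_eval p).comp h2
        have h3 : Filter.Tendsto (fun t' : ℝ => MvPolynomial.eval ![Int.fract x, t'] p)
            (nhdsWithin t (Ioi t)) (nhds (MvPolynomial.eval ![Int.fract x, t] p)) :=
          hcont.continuousAt.tendsto.mono_left nhdsWithin_le_nhds
        rcases lt_or_gt_of_ne h1 with h4 | h4
        · filter_upwards [h3.eventually_lt_const h4] with t' ht'
          rw [sign_neg h4, sign_neg ht']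
        · filter_upwards [h3.eventually_const_lt h4] with t' ht'
          rw [sign_pos h4, sign_pos ht']
    have hall := (Filter.eventually_all_finset G).2 hloc
    have hlt : ∀ᶠ t' in nhdsWithin t (Ioi t), t' ∈ Ioo t 1 := Ioo_mem_nhdsGT ht1
    obtain ⟨t', h1, h2⟩ := (hlt.and hall).exists
    have h3 := hG ![x, f x] ![x, ⌊f x⌋ + t'] (by
      congr 1
      funext i
      fin_cases i
      · rfl
      · change ⌊f x⌋ = ⌊(⌊f x⌋ : ℝ) + t'⌋
        rw [Int.floor_intCast_add, Int.floor_eq_zero_iff.mpr ⟨by linarith [h1.1], h1.2⟩, add_zero])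
      (by
        intro g hg
        have e1 : fr ![x, f x] = ![Int.fract x, t] := by
          funext i
          fin_cases i <;> rfl
        have e2 : fr ![x, (⌊f x⌋ : ℝ) + t'] = ![Int.fract x, t'] := by
          funext i
          fin_cases i
          · rfl
          · change Int.fract ((⌊f x⌋ : ℝ) + t') = t'
            rw [Int.fract_intCast_add, Int.fract_eq_self.mpr ⟨by linarith [h1.1], h1.2⟩]
        rw [e1, e2]
        exact h2 g hg)
    have h4 : (f x = f x) = ((⌊f x⌋ : ℝ) + t' = f x) := h3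
    have h5 : (⌊f x⌋ : ℝ) + t' = f x := by rw [← h4]
    have h6 : t' = t := by
      rw [ht, Int.fract]
      linarith
    linarith [h1.1]

/-- If the graph of `f` is determined then two different unit intervals carry the same fractional
values. -/
lemma exists_shift (hdet : Det (fun v : Fin 2 → ℝ => v 1 = f (v 0))) :
    ∃ m m' : ℤ, m < m' ∧ ∀ s ∈ Ico (0 : ℝ) 1, Int.fract (f (m + s)) = Int.fract (f (m' + s)) := by
  classical
  obtain ⟨ι, hι, c, G, hG⟩ := hdet
  let S : ℤ → Set ι := fun m => Set.range (fun n : ℤ => c ![m, n])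
  have key : ∀ m m' : ℤ, S m = S m' → ∀ s ∈ Ico (0 : ℝ) 1,
      Int.fract (f (m + s)) = Int.fract (f (m' + s)) := by
    intro m m' hS s hs
    have hmem : c ![m, ⌊f (m + s)⌋] ∈ S m' := by
      rw [← hS]; exact ⟨_, rfl⟩
    obtain ⟨n', hn'⟩ := hmem
    set t := Int.fract (f (m + s)) with ht
    have ht0 : 0 ≤ t := Int.fract_nonneg _
    have ht1 : t < 1 := Int.fract_lt_one _
    have h3 := hG ![m + s, f (m + s)] ![m' + s, n' + t] (by
      have e1 : fl ![(m : ℝ) + s, f (m + s)] = ![m, ⌊f (m + s)⌋] := by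
        funext i
        fin_cases i
        · change ⌊(m : ℝ) + s⌋ = m
          rw [Int.floor_intCast_add, Int.floor_eq_zero_iff.mpr hs, add_zero]
        · rfl
      have e2 : fl ![(m' : ℝ) + s, (n' : ℝ) + t] = ![m', n'] := by
        funext i
        fin_cases i
        · change ⌊(m' : ℝ) + s⌋ = m'
          rw [Int.floor_intCast_add, Int.floor_eq_zero_iff.mpr hs, add_zero]
        · change ⌊(n' : ℝ) + t⌋ = n'
          rw [Int.floor_intCast_add, Int.floor_eq_zero_iff.mpr ⟨ht0, ht1⟩, add_zero]
      rw [e1, e2]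
      exact hn'.symm)
      (by
        intro g hg
        have e1 : fr ![(m : ℝ) + s, f (m + s)] = ![s, t] := by
          funext i
          fin_cases i
          · change Int.fract ((m : ℝ) + s) = s
            rw [Int.fract_intCast_add, Int.fract_eq_self.mpr hs]
          · rfl
        have e2 : fr ![(m' : ℝ) + s, (n' : ℝ) + t] = ![s, t] := by
          funext i
          fin_cases i
          · change Int.fract ((m' : ℝ) + s) = s
            rw [Int.fract_intCast_add, Int.fract_eq_self.mpr hs]
          · change Int.fract ((n' : ℝ) + t) = t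
            rw [Int.fract_intCast_add, Int.fract_eq_self.mpr ⟨ht0, ht1⟩]
        rw [e1, e2])
    have h4 : (f (m + s) = f (m + s)) = ((n' : ℝ) + t = f (m' + s)) := h3
    have h5 : (n' : ℝ) + t = f (m' + s) := by rw [← h4]
    rw [← h5, Int.fract_intCast_add, Int.fract_eq_self.mpr ⟨ht0, ht1⟩]
  obtain ⟨m, m', hne, heq⟩ := Finite.exists_ne_map_eq_of_infinite S
  rcases lt_or_gt_of_ne hne with h | h
  · exact ⟨m, m', h, key m m' heq⟩
  · exact ⟨m', m, h, key m' m heq.symm⟩

/-- A continuous function with determined graph is algebraic on bounded intervals. -/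
lemma locAlg (hf : Continuous f) (hdet : Det (fun v : Fin 2 → ℝ => v 1 = f (v 0))) :
    LocAlg f := by
  classical
  obtain ⟨P, hP, hP0⟩ := exists_poly hdet
  intro a b
  obtain ⟨B, hB⟩ := isCompact_Icc.exists_bound_of_continuousOn (s := Icc a b) hf.continuousOn
  let I : Finset (ℤ × ℤ) := Finset.Icc ⌊a⌋ ⌊b⌋ ×ˢ Finset.Icc ⌊-B⌋ ⌊B⌋
  have h1 : AlgOn (⋃ i ∈ I, {x | ⌊x⌋ = i.1 ∧ ⌊f x⌋ = i.2}) f := by
    apply AlgOn.biUnion
    intro i _
    refine ⟨shiftPoly i.1 i.2 P, shiftPoly_ne_zero _ _ hP, ?_⟩
    rintro x ⟨hx1, hx2⟩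
    rw [evalEval_shiftPoly, ← hx1, ← hx2]
    exact hP0 x
  apply h1.mono
  intro x hx
  have h2 := hB x hx
  rw [Real.norm_eq_abs, abs_le] at h2
  simp only [Set.mem_iUnion]
  refine ⟨(⌊x⌋, ⌊f x⌋), ?_, rfl, rfl⟩
  rw [Finset.mem_product, Finset.mem_Icc, Finset.mem_Icc]
  exact ⟨⟨Int.floor_le_floor hx.1, Int.floor_le_floor hx.2⟩,
    ⟨Int.floor_le_floor h2.1, Int.floor_le_floor h2.2⟩⟩

/-- A continuous integer-valued function on `[0,1)` is constant. -/
lemma const_of_int {D : ℝ → ℝ} (hD : Continuous D) (hint : ∀ s ∈ Ico (0 : ℝ) 1, ∃ k : ℤ, D s = k) :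
    ∃ k : ℤ, ∀ s ∈ Ico (0 : ℝ) 1, D s = k := by
  obtain ⟨k, hk⟩ := hint 0 (by norm_num)
  refine ⟨k, ?_⟩
  intro s hs
  obtain ⟨l, hl⟩ := hint s hs
  by_contra hne
  have hkl : k ≠ l := by
    intro e; rw [hl, e] at hne; exact hne rfl
  have hiv := intermediate_value_uIcc (f := D) (a := 0) (b := s) hD.continuousOn
  have hmin : ((min k l : ℤ) : ℝ) + 1 / 2 ∈ uIcc (D 0) (D s) := by
    rw [hk, hl, mem_uIcc]
    rcases lt_or_gt_of_ne hkl with h | h
    · left
      rw [min_eq_left h.le]
      have : (k : ℝ) + 1 ≤ l := by exact_mod_cast h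
      constructor <;> linarith
    · right
      rw [min_eq_right h.le]
      have : (l : ℝ) + 1 ≤ k := by exact_mod_cast h
      constructor <;> linarith
  obtain ⟨z, hz, hz0⟩ := hiv hmin
  rw [uIcc_of_le hs.1] at hz
  obtain ⟨j, hj⟩ := hint z ⟨hz.1, lt_of_le_of_lt hz.2 hs.2⟩
  rw [hj] at hz0
  have h1 : (2 * j : ℤ) = 2 * min k l + 1 := by
    have : (2 : ℝ) * j = 2 * ((min k l : ℤ) : ℝ) + 1 := by linarith
    exact_mod_cast this
  omega

end Graph

/-- Every smooth function definable (with real parameters) in `(ℝ, <, +, ·|(0,1)², ℤ)` is affine. -/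
theorem result (f : ℝ → ℝ) (hsmooth : ContDiff ℝ (⊤ : ℕ∞) f)
    (hdef : (Set.univ : Set ℝ).Definable Lang {v : Fin 2 → ℝ | v 1 = f (v 0)}) :
    ∃ a b : ℝ, ∀ x, f x = a * x + b := by
  have hdet : Det (fun v : Fin 2 → ℝ => v 1 = f (v 0)) := det_of_definable hdef
  have hloc : LocAlg f := locAlg hsmooth.continuous hdet
  obtain ⟨m, m', hmm, hshift⟩ := exists_shift hdet
  set N : ℝ := (m' - m : ℝ) with hN
  have hNpos : 0 < N := by
    have : (m : ℝ) < m' := by exact_mod_cast hmm
    rw [hN]; linarith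
  -- the difference is an integer constant on a unit interval
  obtain ⟨k, hk⟩ := const_of_int (D := fun s => f (m' + s) - f (m + s))
    (by
      apply Continuous.sub
      · exact hsmooth.continuous.comp (by fun_prop)
      · exact hsmooth.continuous.comp (by fun_prop))
    (by
      intro s hs
      have h1 := hshift s hs
      rw [Int.fract_eq_fract] at h1
      obtain ⟨z, hz⟩ := h1
      refine ⟨-z, ?_⟩
      push_cast
      linarith)
  have hlin : LocAlg (fun x => f (x + N) - f x - k) := by
    intro a b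
    have h1 := ((hloc.comp_add N) a b).sub (hloc a b)
    have h2 := h1.sub (AlgOn.poly (s := Icc a b) (C (k : ℝ)))
    simpa using h2
  have hsm : ContDiff ℝ (⊤ : ℕ∞) (fun x => f (x + N) - f x - k) := by
    apply ContDiff.sub
    · apply ContDiff.sub
      · exact hsmooth.comp (contDiff_id.add contDiff_const)
      · exact hsmooth
    · exact contDiff_const
  have hper : ∀ x, f (x + N) - f x - k = 0 := by
    intro x
    apply zero_everywhere hsm hlin (a := m) (b := m + 1 / 2) (by linarith)
    intro y hy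
    have h1 := hk (y - m) ⟨by linarith [hy.1], by linarith [hy.2]⟩
    have e1 : (m' : ℝ) + (y - m) = y + N := by rw [hN]; ring
    have e2 : (m : ℝ) + (y - m) = y := by ring
    simp only [e1, e2] at h1
    linarith
  -- subtract the linear part
  have hv : ∀ x y, f x - k / N * x = f y - k / N * y := by
    apply constant_of_periodic (v := fun x => f x - k / N * x) _ _ hNpos
    · intro x
      have := hper x
      have h2 : (k : ℝ) / N * (x + N) = k / N * x + k := by
        field_simp
      simp only [h2]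
      linarith
    · exact hsmooth.sub (contDiff_const.mul contDiff_id)
    · intro a b
      have h2 := (hloc a b).sub (AlgOn.poly (s := Icc a b) (C (k / N : ℝ) * X))
      simpa using h2
  refine ⟨k / N, f 0, ?_⟩
  intro x
  have := hv x 0
  simp only [mul_zero, sub_zero] at this
  linarith

end Pool.Agent.Results.MP_2d1a26_lc.SmoothDefinableAffine
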